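import Pool.Agent.Lib.MP_18663b_an.Main

set_option autoImplicit false

namespace Pool.Agent.Results.MP_18663b_an.AllBases

open Filter Topology MeasureTheory Finset
open scoped ENNReal

/-- The left shift on sequences. -/
def shift {A : Type*} (ω : ℕ → A) : ℕ → A := fun n => ω (n + 1)

/-- The alias of a real number in base `r`: the digits of its fractional part (with the expansion
ending in zeros when there are two); entry `n` is the digit of weight `r^{-(n+1)}`. -/
noncomputable def digitSeq (r : ℕ) [NeZero r] (x : ℝ) : ℕ → Fin r :=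
  Real.digits (Int.fract x) r

/-- `μ` is quasi-generated by `ω`: it is a weak-* limit of the empirical measures
`1/N_k * ∑_{n < N_k} δ_{σ^n ω}` along some `N_k → ∞`. -/
def QuasiGenerated {r : ℕ} (ω : ℕ → Fin r) (μ : ProbabilityMeasure (ℕ → Fin r)) : Prop :=
  ∃ N : ℕ → ℕ, Tendsto N atTop atTop ∧ ∀ f : C(ℕ → Fin r, ℝ),
    Tendsto (fun k => (∑ n ∈ range (N k), f (shift^[n] ω)) / (N k : ℝ)) atTop
      (𝓝 (∫ ω', f ω' ∂(μ : Measure (ℕ → Fin r))))

/-- Shannon entropy of the join of `ξ, T⁻¹ξ, …, T^{-(n-1)}ξ` for a finite partition given by a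
map `ξ : X → Fin m`. -/
noncomputable def joinEntropy {X : Type*} [MeasurableSpace X] (μ : Measure X) (T : X → X)
    {m : ℕ} (ξ : X → Fin m) (n : ℕ) : ℝ :=
  ∑ w : Fin n → Fin m, Real.negMulLog (μ.real {x | ∀ i : Fin n, ξ (T^[i.val] x) = w i})

/-- Kolmogorov-Sinai entropy: supremum over finite measurable partitions `ξ` of
`inf_{n ≥ 1} H(ξ ∨ … ∨ T^{-(n-1)}ξ) / n`. -/
noncomputable def ksEntropy {X : Type*} [MeasurableSpace X] (μ : Measure X) (T : X → X) : ℝ≥0∞ :=
  ⨆ (m : ℕ) (ξ : X → Fin m) (_ : Measurable ξ),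
    ENNReal.ofReal (⨅ n : ℕ, joinEntropy μ T ξ (n + 1) / ((n + 1 : ℕ) : ℝ))

/-- `x` is deterministic in base `r`: every measure quasi-generated by its alias has
Kolmogorov-Sinai entropy zero. -/
def Deterministic (r : ℕ) [NeZero r] (x : ℝ) : Prop :=
  ∀ μ : ProbabilityMeasure (ℕ → Fin r), QuasiGenerated (digitSeq r x) μ →
    ksEntropy (μ : Measure (ℕ → Fin r)) shift = 0

lemma shift_iterate {A : Type*} (ω : ℕ → A) (n : ℕ) : shift^[n] ω = fun i => ω (n + i) := by
  induction n generalizing ω with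
  | zero => funext i; simp
  | succ n ih =>
    rw [Function.iterate_succ_apply, ih]
    funext i
    simp only [shift]
    congr 1
    omega

lemma digitSeq_val (r : ℕ) [NeZero r] (x : ℝ) (n : ℕ) :
    ((digitSeq r x n : ℕ) : ℤ) = ⌊(r : ℝ) ^ (n + 1) * x⌋ % (r : ℤ) := by
  unfold digitSeq Real.digits
  rw [Fin.val_ofNat]
  have h0 : 0 ≤ Int.fract x * (r : ℝ) ^ (n + 1) :=
    mul_nonneg (Int.fract_nonneg x) (by positivity)
  have h1 : ((⌊Int.fract x * (r : ℝ) ^ (n + 1)⌋₊ : ℕ) : ℤ) = ⌊Int.fract x * (r : ℝ) ^ (n + 1)⌋ :=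
    Int.natCast_floor_eq_floor h0
  have h2 : (r : ℝ) ^ (n + 1) * x
      = ((⌊x⌋ * (r : ℤ) ^ (n + 1) : ℤ) : ℝ) + Int.fract x * (r : ℝ) ^ (n + 1) := by
    push_cast
    have := Int.floor_add_fract x
    calc (r : ℝ) ^ (n + 1) * x = (r : ℝ) ^ (n + 1) * (⌊x⌋ + Int.fract x) := by rw [this]
      _ = _ := by ring
  rw [Int.natCast_emod, h1, h2, Int.floor_intCast_add]
  have h3 : (r : ℤ) ∣ ⌊x⌋ * (r : ℤ) ^ (n + 1) := Dvd.dvd.mul_left (dvd_pow_self _ (by omega)) _
  obtain ⟨c, hc⟩ := h3
  rw [hc, Int.mul_add_emod_self_left]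

/-- continuous indicator of a cylinder at position `j` -/
noncomputable def cyl {r : ℕ} (k : ℕ) (w : Fin k → Fin r) : C(ℕ → Fin r, ℝ) where
  toFun := fun ω => if (fun i : Fin k => ω i.val) = w then 1 else 0
  continuous_toFun := by
    have h1 : Continuous (fun ω : ℕ → Fin r => (fun i : Fin k => ω i.val)) := by fun_prop
    exact (continuous_of_discreteTopology
      (f := fun v : Fin k → Fin r => if v = w then (1 : ℝ) else 0)).comp h1

lemma integral_cyl {r : ℕ} (μ : ProbabilityMeasure (ℕ → Fin r)) (k : ℕ) (w : Fin k → Fin r) :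
    ∫ ω', cyl k w ω' ∂(μ : Measure (ℕ → Fin r))
      = (μ : Measure (ℕ → Fin r)).real {ω | ∀ i : Fin k, ω i.val = w i} := by
  have h1 : ∀ ω', cyl k w ω' = Set.indicator {ω : ℕ → Fin r | ∀ i : Fin k, ω i.val = w i}
      (fun _ => (1 : ℝ)) ω' := by
    intro ω'
    unfold cyl
    simp only [ContinuousMap.coe_mk, Set.indicator, Set.mem_ofPred_eq]
    by_cases h : (fun i : Fin k => ω' i.val) = w
    · rw [if_pos h, if_pos (fun i => congrFun h i)]
    · rw [if_neg h, if_neg (fun h2 => h (funext h2))]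
  have h2 : MeasurableSet {ω : ℕ → Fin r | ∀ i : Fin k, ω i.val = w i} := by
    have : {ω : ℕ → Fin r | ∀ i : Fin k, ω i.val = w i}
        = ⋂ i : Fin k, (fun ω : ℕ → Fin r => ω i.val) ⁻¹' {w i} := by
      ext ω; simp
    rw [this]
    exact MeasurableSet.iInter (fun i => (measurable_pi_apply _) (measurableSet_singleton _))
  simp_rw [h1]
  rw [integral_indicator_const _ h2]
  simp

lemma avg_cyl (r : ℕ) [NeZero r] (y : ℝ) (N k : ℕ) (w : Fin k → Fin r) :
    ∑ n ∈ range N, cyl k w (shift^[n] (digitSeq r y))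
      = (Lib.MP_18663b_an.cnt r y N k w : ℝ) := by
  unfold Lib.MP_18663b_an.cnt
  rw [Finset.card_filter]
  push_cast
  refine Finset.sum_congr rfl (fun n _ => ?_)
  unfold cyl
  simp only [ContinuousMap.coe_mk, shift_iterate]
  have h1 : ((fun i : Fin k => digitSeq r y (n + i.val)) = w) ↔
      (∀ i : Fin k, ⌊(r : ℝ) ^ (n + i.val + 1) * y⌋ % (r : ℤ) = ((w i : ℕ) : ℤ)) := by
    rw [funext_iff]
    refine forall_congr' (fun i => ?_)
    rw [← digitSeq_val, Fin.ext_iff]
    exact Int.natCast_inj.symm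
  by_cases h : (fun i : Fin k => digitSeq r y (n + i.val)) = w
  · rw [if_pos h, if_pos (h1.1 h)]
  · rw [if_neg h, if_neg (fun h2 => h (h1.2 h2))]

/-- continuous indicator of a nonzero digit at position `j` -/
noncomputable def nzAt {r : ℕ} [NeZero r] (j : ℕ) : C(ℕ → Fin r, ℝ) where
  toFun := fun ω => if ω j = 0 then 0 else 1
  continuous_toFun := by
    have h1 : Continuous (fun ω : ℕ → Fin r => ω j) := by fun_prop
    exact (continuous_of_discreteTopology
      (f := fun v : Fin r => if v = 0 then (0 : ℝ) else 1)).comp h1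

lemma avg_nzAt (r : ℕ) [NeZero r] (x : ℝ) (N j : ℕ) :
    ∑ n ∈ range N, nzAt j (shift^[n] (digitSeq r x))
      ≤ (Lib.MP_18663b_an.nz r x 0 N : ℝ) + j := by
  have h1 : ∑ n ∈ range N, nzAt j (shift^[n] (digitSeq r x))
      = (((range N).filter (fun n => ⌊(r : ℝ) ^ (n + j + 1) * x⌋ % (r : ℤ) ≠ 0)).card : ℝ) := by
    rw [Finset.card_filter]
    push_cast
    refine Finset.sum_congr rfl (fun n _ => ?_)
    unfold nzAt
    simp only [ContinuousMap.coe_mk, shift_iterate]
    have h2 : digitSeq r x (n + j) = 0 ↔ ⌊(r : ℝ) ^ (n + j + 1) * x⌋ % (r : ℤ) = 0 := by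
      rw [← digitSeq_val, Fin.ext_iff]
      simp
    by_cases h : digitSeq r x (n + j) = 0
    · rw [if_pos h, if_neg (not_not.2 (h2.1 h))]
    · rw [if_neg h, if_pos (fun h3 => h (h2.2 h3))]
  rw [h1]
  have h2 : ((range N).filter (fun n => ⌊(r : ℝ) ^ (n + j + 1) * x⌋ % (r : ℤ) ≠ 0)).card
      ≤ Lib.MP_18663b_an.nz r x 0 N + j := by
    unfold Lib.MP_18663b_an.nz
    have h3 : ((range N).filter (fun n => ⌊(r : ℝ) ^ (n + j + 1) * x⌋ % (r : ℤ) ≠ 0)).image
        (fun n => n + j) ⊆ (range N).filter (fun n => 0 ≤ n ∧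
          ⌊(r : ℝ) ^ (n + 1) * x⌋ % (r : ℤ) ≠ 0) ∪ Finset.Ico N (N + j) := by
      intro m hm
      rw [Finset.mem_image] at hm
      obtain ⟨n, hn, rfl⟩ := hm
      rw [Finset.mem_filter, Finset.mem_range] at hn
      rw [Finset.mem_union, Finset.mem_filter, Finset.mem_range, Finset.mem_Ico]
      rcases Nat.lt_or_ge (n + j) N with h | h
      · left; exact ⟨h, Nat.zero_le _, hn.2⟩
      · right; omega
    calc _ = (((range N).filter (fun n => ⌊(r : ℝ) ^ (n + j + 1) * x⌋ % (r : ℤ) ≠ 0)).image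
          (fun n => n + j)).card := by
            rw [Finset.card_image_of_injective _ (fun a b h => Nat.add_right_cancel h)]
      _ ≤ _ := Finset.card_le_card h3
      _ ≤ _ := Finset.card_union_le _ _
      _ = _ := by rw [Nat.card_Ico]; simp
  exact_mod_cast h2

lemma det_of_sparse (r : ℕ) [NeZero r] (x : ℝ)
    (h : Tendsto (fun n : ℕ => (Lib.MP_18663b_an.nz r x 0 n : ℝ) / n) atTop (𝓝 0)) :
    Deterministic r x := by
  intro μ hμ
  obtain ⟨N, hN, hf⟩ := hμ
  have hzero : ∀ j : ℕ, (μ : Measure (ℕ → Fin r)) {ω | ω j ≠ 0} = 0 := by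
    intro j
    have h1 : Tendsto (fun k => (∑ n ∈ range (N k), nzAt j (shift^[n] (digitSeq r x))) / (N k : ℝ))
        atTop (𝓝 0) := by
      have h2 : Tendsto (fun k => (Lib.MP_18663b_an.nz r x 0 (N k) : ℝ) / (N k : ℝ)
          + (j : ℝ) / (N k : ℝ)) atTop (𝓝 (0 + 0)) := by
        apply Tendsto.add
        · exact h.comp hN
        · exact (tendsto_const_div_atTop_nhds_zero_nat (j : ℝ)).comp hN
      rw [add_zero] at h2
      refine squeeze_zero (fun k => ?_) (fun k => ?_) h2
      · apply div_nonneg _ (by positivity)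
        apply Finset.sum_nonneg
        intro n _
        unfold nzAt
        simp only [ContinuousMap.coe_mk]
        split_ifs <;> norm_num
      · rw [← add_div]
        exact div_le_div_of_nonneg_right (avg_nzAt r x (N k) j) (by positivity)
    have h2 := tendsto_nhds_unique (hf (nzAt j)) h1
    have hms : MeasurableSet {ω : ℕ → Fin r | ω j ≠ 0} := by
      have : {ω : ℕ → Fin r | ω j ≠ 0} = (fun ω : ℕ → Fin r => ω j) ⁻¹' {0}ᶜ := by
        ext ω; simp
      rw [this]
      exact (measurable_pi_apply _) (measurableSet_singleton _).compl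
    have h3 : ∀ ω', nzAt j ω' = Set.indicator {ω : ℕ → Fin r | ω j ≠ 0} (fun _ => (1 : ℝ)) ω' := by
      intro ω'
      unfold nzAt
      simp only [ContinuousMap.coe_mk, Set.indicator, Set.mem_ofPred_eq]
      by_cases h : ω' j = 0
      · rw [if_pos h, if_neg (not_not.2 h)]
      · rw [if_neg h, if_pos h]
    simp_rw [h3] at h2
    rw [integral_indicator_const _ hms] at h2
    simp only [smul_eq_mul, mul_one] at h2
    exact (measureReal_eq_zero_iff).1 h2
  -- the measure is the point mass at the zero sequence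
  have hall : (μ : Measure (ℕ → Fin r)) {ω | ω ≠ fun _ => 0} = 0 := by
    have : {ω : ℕ → Fin r | ω ≠ fun _ => 0} = ⋃ j, {ω | ω j ≠ 0} := by
      ext ω
      simp only [Set.mem_ofPred_eq, Set.mem_iUnion]
      constructor
      · intro hne
        by_contra hcon
        push Not at hcon
        exact hne (funext hcon)
      · rintro ⟨j, hj⟩ heq
        exact hj (by rw [heq])
    rw [this]
    exact measure_iUnion_null hzero
  have hentropy : ∀ (m : ℕ) (ξ : (ℕ → Fin r) → Fin m) (n : ℕ),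
      joinEntropy (μ : Measure (ℕ → Fin r)) shift ξ n = 0 := by
    intro m ξ n
    unfold joinEntropy
    apply Finset.sum_eq_zero
    intro w _
    by_cases hw : (fun _ => (0 : Fin r)) ∈ {x : ℕ → Fin r | ∀ i : Fin n, ξ (shift^[i.val] x) = w i}
    · have h1 : (μ : Measure (ℕ → Fin r)) {x | ∀ i : Fin n, ξ (shift^[i.val] x) = w i} = 1 := by
        have h2 : (μ : Measure (ℕ → Fin r)) {x | ∀ i : Fin n, ξ (shift^[i.val] x) = w i}
            = (μ : Measure (ℕ → Fin r)) Set.univ := by
          apply measure_congr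
          rw [eventuallyEq_set]
          have h3 : ∀ᵐ ω ∂(μ : Measure (ℕ → Fin r)), ω = fun _ => 0 := by
            rw [ae_iff]; exact hall
          filter_upwards [h3] with ω hω
          rw [hω]
          simp only [Set.mem_univ, iff_true]
          exact hw
        rw [h2]; exact measure_univ
      have h2 : (μ : Measure (ℕ → Fin r)).real {x | ∀ i : Fin n, ξ (shift^[i.val] x) = w i} = 1 := by
        rw [measureReal_def, h1]; simp
      rw [h2, Real.negMulLog_one]
    · have h1 : (μ : Measure (ℕ → Fin r)) {x | ∀ i : Fin n, ξ (shift^[i.val] x) = w i} = 0 := by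
        apply measure_mono_null _ hall
        intro ω hω hcon
        apply hw
        rw [← hcon]
        exact hω
      have h2 : (μ : Measure (ℕ → Fin r)).real {x | ∀ i : Fin n, ξ (shift^[i.val] x) = w i} = 0 := by
        rw [measureReal_def, h1]; simp
      rw [h2, Real.negMulLog_zero]
  unfold ksEntropy
  simp [hentropy]

/-- empirical measures as probability measures -/
noncomputable def emp (r : ℕ) [NeZero r] (y : ℝ) (N : ℕ) : ProbabilityMeasure (ℕ → Fin r) :=
  ⟨((N + 1 : ℕ) : ℝ≥0∞)⁻¹ • ∑ n ∈ range (N + 1), Measure.dirac (shift^[n] (digitSeq r y)), by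
    constructor
    rw [Measure.smul_apply, Measure.finsetSum_apply]
    simp only [measure_univ, Finset.sum_const, Finset.card_range, nsmul_eq_mul, mul_one,
      smul_eq_mul]
    exact ENNReal.inv_mul_cancel (by positivity) (ENNReal.natCast_ne_top _)⟩

lemma integral_emp (r : ℕ) [NeZero r] (y : ℝ) (N : ℕ) (f : C(ℕ → Fin r, ℝ)) :
    ∫ ω', f ω' ∂(emp r y N : Measure (ℕ → Fin r))
      = (∑ n ∈ range (N + 1), f (shift^[n] (digitSeq r y))) / ((N + 1 : ℕ) : ℝ) := by
  have h0 : (emp r y N : Measure (ℕ → Fin r)) = ((N + 1 : ℕ) : ℝ≥0∞)⁻¹ •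
      ∑ n ∈ range (N + 1), Measure.dirac (shift^[n] (digitSeq r y)) := rfl
  rw [h0, integral_smul_measure, integral_finsetSum_measure]
  · simp only [integral_dirac, ENNReal.toReal_inv, ENNReal.toReal_natCast, smul_eq_mul]
    rw [div_eq_inv_mul]
  · intro n _
    exact integrable_dirac (by exact enorm_lt_top)

theorem result : ∀ (r : ℕ) [NeZero r], 2 ≤ r →
    ∃ x : ℝ, x ≠ 0 ∧ Deterministic r x ∧ ¬ Deterministic r x⁻¹ := by
  intro r _ hr
  obtain ⟨x, hx1, hx2, hx3⟩ := Lib.MP_18663b_an.exists_real r hr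
  refine ⟨x, by linarith, det_of_sparse r x (Lib.MP_18663b_an.tendsto_nz r x hx2), ?_⟩
  set y : ℝ := x⁻¹ with hy
  intro hD
  -- choose good lengths
  choose N hN1 hN2 using fun j : ℕ => hx3 j (j + 1)
  -- convergent subsequence of the empirical measures
  obtain ⟨μ, _, φ, hφ, hlim⟩ := (isCompact_univ (X := ProbabilityMeasure (ℕ → Fin r))).tendsto_subseq
    (x := fun j => emp r y (N j - 1)) (fun _ => Set.mem_univ _)
  have hNφ : Tendsto (fun k => N (φ k)) atTop atTop := by
    refine tendsto_atTop_mono (fun k => ?_) hφ.tendsto_atTop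
    have := hN1 (φ k)
    omega
  have hconv : ∀ f : C(ℕ → Fin r, ℝ),
      Tendsto (fun k => (∑ n ∈ range (N (φ k)), f (shift^[n] (digitSeq r y))) / (N (φ k) : ℝ)) atTop
      (𝓝 (∫ ω', f ω' ∂(μ : Measure (ℕ → Fin r)))) := by
    intro f
    have h1 := (ProbabilityMeasure.tendsto_iff_forall_integral_tendsto.1 hlim)
      (BoundedContinuousFunction.mkOfCompact f)
    refine h1.congr (fun k => ?_)
    have h2 := integral_emp r y (N (φ k) - 1) f
    have h3 : N (φ k) - 1 + 1 = N (φ k) := by have := hN1 (φ k); omega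
    rw [h3] at h2
    simpa using h2
  have hquasi : QuasiGenerated (digitSeq r y) μ := ⟨fun k => N (φ k), hNφ, hconv⟩
  have hzero := hD μ hquasi
  -- lower bound
  have hlog : 0 < Real.log (4 / 3) := Real.log_pos (by norm_num)
  have hlower : ∀ κ : ℕ, 1 ≤ κ → 1 / 8 * Real.log (4 / 3) * κ ≤
      joinEntropy (μ : Measure (ℕ → Fin r)) shift (fun ω => ω 0) κ := by
    intro κ hκ
    have h1 : Tendsto (fun k => Lib.MP_18663b_an.HH r y (N (φ k)) κ) atTop
        (𝓝 (joinEntropy (μ : Measure (ℕ → Fin r)) shift (fun ω => ω 0) κ)) := by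
      unfold Lib.MP_18663b_an.HH joinEntropy
      apply tendsto_finsetSum
      intro w _
      apply (Real.continuous_negMulLog.tendsto _).comp
      have h2 := hconv (cyl κ w)
      rw [integral_cyl] at h2
      simp_rw [avg_cyl] at h2
      have h3 : {x : ℕ → Fin r | ∀ i : Fin κ, shift^[i.val] x 0 = w i}
          = {ω : ℕ → Fin r | ∀ i : Fin κ, ω i.val = w i} := by
        ext ω
        simp [shift_iterate]
      rw [h3]
      exact h2
    refine ge_of_tendsto h1 ?_
    filter_upwards [eventually_ge_atTop κ] with k hk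
    exact hN2 (φ k) κ hκ (le_trans hk (hφ.id_le k))
  have hmeas : Measurable (fun ω : ℕ → Fin r => ω 0) := measurable_pi_apply 0
  have hinf : 1 / 8 * Real.log (4 / 3) ≤ ⨅ n : ℕ, joinEntropy (μ : Measure (ℕ → Fin r)) shift
      (fun ω => ω 0) (n + 1) / ((n + 1 : ℕ) : ℝ) := by
    apply le_ciInf
    intro n
    have h1 := hlower (n + 1) (by omega)
    rw [le_div_iff₀ (by positivity)]
    exact h1
  have hpos : 0 < ksEntropy (μ : Measure (ℕ → Fin r)) shift := by
    unfold ksEntropy
    refine lt_of_lt_of_le ?_ (le_iSup_of_le r (le_iSup_of_le (fun ω => ω 0)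
      (le_iSup_of_le hmeas le_rfl)))
    rw [ENNReal.ofReal_pos]
    exact lt_of_lt_of_le (by positivity) hinf
  exact absurd hzero hpos.ne'

end Pool.Agent.Results.MP_18663b_an.AllBases
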